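import Mathlib

/-!
Schreier generators with positive words (packet L2 for MP_d69e80_al).
-/

open scoped Pointwise

namespace Pool.Agent.Helper98.TL

variable {G : Type*} [Group G]

/-- the points reached from `x₀` by positive words of length at most `l` -/
def reachSet {X : Type*} [MulAction G X] (S : Set G) (x₀ : X) (l : ℕ) : Set X :=
  {x | ∃ k ≤ l, ∃ u ∈ S ^ k, u • x₀ = x}

theorem reach {X : Type*} [MulAction G X] [MulAction.IsPretransitive G X] [Finite X]
    (S : Set G) (hS : Subgroup.closure S = ⊤) (x₀ x : X) :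
    ∃ l ≤ Nat.card X - 1, ∃ u ∈ S ^ l, u • x₀ = x := by
  have hmono : ∀ l, reachSet S x₀ l ⊆ reachSet S x₀ (l + 1) := by
    rintro l y ⟨k, hk, u, hu, rfl⟩
    exact ⟨k, by omega, u, hu, rfl⟩
  have hx₀ : ∀ l, x₀ ∈ reachSet S x₀ l := fun l => ⟨0, Nat.zero_le _, 1, by simp, one_smul _ _⟩
  have hstep : ∀ l, reachSet S x₀ (l + 1) = reachSet S x₀ l → reachSet S x₀ l = Set.univ := by
    intro l hl
    have hclosed : ∀ s ∈ S, ∀ y ∈ reachSet S x₀ l, s • y ∈ reachSet S x₀ l := by
      rintro s hs y ⟨k, hk, u, hu, rfl⟩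
      rw [← hl]
      refine ⟨k + 1, by omega, s * u, ?_, mul_smul _ _ _⟩
      rw [pow_succ']
      exact Set.mul_mem_mul hs hu
    have hstab : ∀ s ∈ S, s • reachSet S x₀ l = reachSet S x₀ l := by
      intro s hs
      apply Set.eq_of_subset_of_ncard_le
      · rintro _ ⟨y, hy, rfl⟩
        exact hclosed s hs y hy
      · rw [show s • reachSet S x₀ l = (fun y => s • y) '' reachSet S x₀ l from rfl,
          Set.ncard_image_of_injective _ (MulAction.injective s)]
      · exact Set.toFinite _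
    have hle : (⊤ : Subgroup G) ≤ MulAction.stabilizer G (reachSet S x₀ l) := by
      rw [← hS, Subgroup.closure_le]
      intro s hs
      exact hstab s hs
    rw [Set.eq_univ_iff_forall]
    intro y
    obtain ⟨g, rfl⟩ := MulAction.exists_smul_eq G x₀ y
    have hg : g • reachSet S x₀ l = reachSet S x₀ l := hle (Subgroup.mem_top g)
    rw [← hg]
    exact Set.smul_mem_smul_set (hx₀ l)
  have hind : ∀ l, reachSet S x₀ l = Set.univ ∨ l + 1 ≤ (reachSet S x₀ l).ncard := by
    intro l
    induction l with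
    | zero =>
      right
      have : 0 < (reachSet S x₀ 0).ncard := by
        rw [Set.ncard_pos (Set.toFinite _)]
        exact ⟨x₀, hx₀ 0⟩
      omega
    | succ l ih =>
      rcases ih with h | h
      · left
        exact Set.univ_subset_iff.mp (h ▸ hmono l)
      · by_cases he : reachSet S x₀ (l + 1) = reachSet S x₀ l
        · left
          rw [he]
          exact hstep l he
        · right
          have : (reachSet S x₀ l).ncard < (reachSet S x₀ (l + 1)).ncard := by
            apply Set.ncard_lt_ncard _ (Set.toFinite _)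
            exact (hmono l).ssubset_of_ne (Ne.symm he)
          omega
  have hall : reachSet S x₀ (Nat.card X - 1) = Set.univ := by
    rcases hind (Nat.card X - 1) with h | h
    · exact h
    · have hpos : 0 < Nat.card X := Nat.card_pos_iff.mpr ⟨⟨x₀⟩, inferInstance⟩
      apply Set.eq_of_subset_of_ncard_le (Set.subset_univ _) _ (Set.toFinite _)
      rw [Set.ncard_univ]
      omega
  have : x ∈ reachSet S x₀ (Nat.card X - 1) := by rw [hall]; trivial
  obtain ⟨k, hk, u, hu, rfl⟩ := this
  exact ⟨k, hk, u, hu, rfl⟩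

theorem closure_inv_top {S : Set G} (hS : Subgroup.closure S = ⊤) :
    Subgroup.closure (S⁻¹) = ⊤ := by
  rw [Subgroup.closure_inv, hS]

/-- right end: every `g` can be completed by a short positive word to an element of `H` -/
theorem exists_right (S : Set G) (hS : Subgroup.closure S = ⊤) (H : Subgroup G) [H.FiniteIndex]
    (g : G) : ∃ l ≤ H.index - 1, ∃ u ∈ S ^ l, g * u ∈ H := by
  obtain ⟨l, hl, u, hu, h⟩ := reach (X := G ⧸ H) S hS ((1 : G) : G ⧸ H) ((g⁻¹ : G) : G ⧸ H)
  refine ⟨l, hl, u, hu, ?_⟩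
  have h1 : ((u * 1 : G) : G ⧸ H) = ((g⁻¹ : G) : G ⧸ H) := h
  have h2 := QuotientGroup.eq.mp h1.symm
  simpa using h2

theorem exists_left (S : Set G) (hS : Subgroup.closure S = ⊤) (H : Subgroup G) [H.FiniteIndex]
    (g : G) : ∃ l ≤ H.index - 1, ∃ t ∈ S ^ l, g * t⁻¹ ∈ H := by
  obtain ⟨l, hl, u, hu, h⟩ := exists_right S⁻¹ (closure_inv_top hS) H g
  refine ⟨l, hl, u⁻¹, ?_, by simpa using h⟩
  rw [inv_pow, Set.mem_inv] at hu
  exact hu

theorem schreier_positive_set (S : Set G) (hS : Subgroup.closure S = ⊤) (H : Subgroup G)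
    [H.FiniteIndex] :
    Subgroup.closure {g : G | g ∈ H ∧ ∃ l, 1 ≤ l ∧ l ≤ 2 * H.index - 1 ∧ g ∈ S ^ l} = H := by
  set K := Subgroup.closure {g : G | g ∈ H ∧ ∃ l, 1 ≤ l ∧ l ≤ 2 * H.index - 1 ∧ g ∈ S ^ l} with hK
  have hpos : 0 < H.index := Nat.pos_of_ne_zero Subgroup.FiniteIndex.index_ne_zero
  have hKH : K ≤ H := by
    rw [hK, Subgroup.closure_le]
    intro g hg
    exact hg.1
  have hgen : ∀ l ≤ 2 * H.index - 1, ∀ g ∈ S ^ l, g ∈ H → g ∈ K := by
    intro l hl g hg hgH
    rcases Nat.eq_zero_or_pos l with h0 | h0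
    · subst h0
      have : g = 1 := by simpa using hg
      rw [this]
      exact K.one_mem
    · exact Subgroup.subset_closure ⟨hgH, l, h0, hl, hg⟩
  -- the elements `a s b⁻¹` of `H`
  have hpiece : ∀ l ≤ H.index - 1, ∀ a ∈ S ^ l, ∀ s ∈ S, ∀ m ≤ H.index - 1, ∀ b ∈ S ^ m,
      a * s * b⁻¹ ∈ H → a * s * b⁻¹ ∈ K := by
    intro l hl a ha s hs m hm b hb hab
    obtain ⟨k, hk, u, hu, hbu⟩ := exists_right S hS H b
    have h1 : a * s * u ∈ H := by
      have := H.mul_mem hab hbu
      simpa [mul_assoc] using this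
    have h2 : a * s * u ∈ K := by
      apply hgen (l + 1 + k) (by omega) _ _ h1
      rw [pow_add, pow_add, pow_one]
      exact Set.mul_mem_mul (Set.mul_mem_mul ha hs) hu
    have h3 : b * u ∈ K := by
      apply hgen (m + k) (by omega) _ _ hbu
      rw [pow_add]
      exact Set.mul_mem_mul hb hu
    have := K.mul_mem h2 (K.inv_mem h3)
    simpa [mul_assoc] using this
  have hP : ∀ g : G, ∀ l ≤ H.index - 1, ∀ t ∈ S ^ l, g * t⁻¹ ∈ H → g * t⁻¹ ∈ K := by
    intro g
    have hg : g ∈ Subgroup.closure S := by rw [hS]; trivial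
    induction hg using Subgroup.closure_induction_right with
    | one =>
      intro l hl t ht h
      rw [one_mul] at h ⊢
      exact K.inv_mem (hgen l (by omega) t ht ((H.inv_mem_iff).mp h))
    | mul_right x hx y hy ih =>
      intro l hl t ht h
      obtain ⟨m, hm, t', ht', hxt⟩ := exists_left S hS H x
      have h1 := ih m hm t' ht' hxt
      have h2 : t' * y * t⁻¹ ∈ H := by
        have := H.mul_mem (H.inv_mem hxt) h
        simpa [mul_assoc] using this
      have h3 := hpiece m hm t' ht' y hy l hl t ht h2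
      have := K.mul_mem h1 h3
      simpa [mul_assoc] using this
    | mul_inv_cancel x hx y hy ih =>
      intro l hl t ht h
      obtain ⟨m, hm, t', ht', hxt⟩ := exists_left S hS H x
      have h1 := ih m hm t' ht' hxt
      have h2 : t * y * t'⁻¹ ∈ H := by
        have := H.mul_mem (H.inv_mem h) hxt
        simpa [mul_assoc] using this
      have h3 := hpiece l hl t ht y hy m hm t' ht' h2
      have := K.mul_mem h1 (K.inv_mem h3)
      simpa [mul_assoc] using this
  apply le_antisymm hKH
  intro h hh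
  have := hP h 0 (Nat.zero_le _) 1 (by simp) (by simpa using hh)
  simpa using this

theorem schreier_positive {G : Type*} [Group G] [DecidableEq G] (S : Finset G)
    (hS : Subgroup.closure (S : Set G) = ⊤) (H : Subgroup G) [H.FiniteIndex] :
    Subgroup.closure {g : G | g ∈ H ∧ ∃ l, 1 ≤ l ∧ l ≤ 2 * H.index - 1 ∧ g ∈ S ^ l} = H := by
  have h := schreier_positive_set (S : Set G) hS H
  have hset : {g : G | g ∈ H ∧ ∃ l, 1 ≤ l ∧ l ≤ 2 * H.index - 1 ∧ g ∈ S ^ l} =
      {g : G | g ∈ H ∧ ∃ l, 1 ≤ l ∧ l ≤ 2 * H.index - 1 ∧ g ∈ (S : Set G) ^ l} := by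
    ext g
    simp only [Set.mem_ofPred_eq]
    have : ∀ l, g ∈ S ^ l ↔ g ∈ (S : Set G) ^ l := by
      intro l
      rw [← Finset.coe_pow, Finset.mem_coe]
    simp only [this]
  rw [hset]
  exact h

end Pool.Agent.Helper98.TL
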